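import Mathlib

/-!
# McLain kernels: supports of endomorphisms of a direct sum
-/

set_option autoImplicit false

namespace Pool.Agent.U89.ML

open scoped commutatorElement

theorem ring_mul {A : Type} [Ring A] (a b : A) :
    a * b - 1 = ((a - 1) + (b - 1)) + (a - 1) * (b - 1) := by noncomm_ring

theorem ring_comm {A : Type} [Ring A] (a b c : A) (h : b * a * c = 1) :
    a * b * c - 1 = ((a - 1) * (b - 1) - (b - 1) * (a - 1)) +
      ((a - 1) * (b - 1) - (b - 1) * (a - 1)) * (c - 1) := by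
  have h6 : a * b * c - 1 = a * b * c - b * a * c := by rw [h]
  rw [h6]
  noncomm_ring

theorem ring_conj {A : Type} [Ring A] (a b c : A) (h : a * c = 1) :
    a * b * c - 1 = ((b - 1) + (a - 1) * (b - 1)) + ((b - 1) + (a - 1) * (b - 1)) * (c - 1) := by
  have h6 : a * b * c - 1 = a * b * c - a * c := by rw [h]
  rw [h6]
  noncomm_ring

open Classical in
/-- the element of the direct sum with the component `v` at `x` -/
noncomputable def sgl {Λ : Type} {V : Λ → Type} [∀ x, AddCommGroup (V x)] (x : Λ) (v : V x) :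
    Π₀ x, V x := DFinsupp.single x v

variable {Λ : Type} {V : Λ → Type} [∀ x, AddCommGroup (V x)]

/-- the nonzero entries `(y, x)` of `f` satisfy `R y x` -/
def Sup (R : Λ → Λ → Prop) (f : AddMonoid.End (Π₀ x, V x)) : Prop :=
  ∀ (x : Λ) (v : V x) (y : Λ), f (sgl x v) y ≠ 0 → R y x

theorem Sup.mono {R S : Λ → Λ → Prop} (h : ∀ y x, R y x → S y x)
    {f : AddMonoid.End (Π₀ x, V x)} (hf : Sup R f) : Sup S f :=
  fun x v y hy => h y x (hf x v y hy)

theorem Sup.zero (R : Λ → Λ → Prop) : Sup R (0 : AddMonoid.End (Π₀ x, V x)) :=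
  fun _ _ _ hy => absurd rfl hy

theorem Sup.add {R : Λ → Λ → Prop} {f g : AddMonoid.End (Π₀ x, V x)} (hf : Sup R f) (hg : Sup R g) :
    Sup R (f + g) := by
  intro x v y hy
  by_contra h
  have h1 : f (sgl x v) y = 0 := by
    by_contra h2
    exact h (hf x v y h2)
  have h2 : g (sgl x v) y = 0 := by
    by_contra h3
    exact h (hg x v y h3)
  apply hy
  show (f (sgl x v) + g (sgl x v)) y = 0
  rw [DFinsupp.add_apply, h1, h2, add_zero]

theorem Sup.neg {R : Λ → Λ → Prop} {f : AddMonoid.End (Π₀ x, V x)} (hf : Sup R f) :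
    Sup R (-f) := by
  intro x v y hy
  apply hf x v y
  intro h
  apply hy
  show (-(f (sgl x v))) y = 0
  rw [DFinsupp.neg_apply, h, neg_zero]

theorem Sup.sub {R : Λ → Λ → Prop} {f g : AddMonoid.End (Π₀ x, V x)} (hf : Sup R f) (hg : Sup R g) :
    Sup R (f - g) := by
  rw [sub_eq_add_neg]
  exact hf.add hg.neg

theorem Sup.inter {R S : Λ → Λ → Prop} {f : AddMonoid.End (Π₀ x, V x)} (hf : Sup R f)
    (hg : Sup S f) : Sup (fun y x => R y x ∧ S y x) f :=
  fun x v y hy => ⟨hf x v y hy, hg x v y hy⟩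

open Classical in
theorem exists_entry (f : AddMonoid.End (Π₀ x, V x)) (w : Π₀ x, V x) (y : Λ) (h : f w y ≠ 0) :
    ∃ z, w z ≠ 0 ∧ f (sgl z (w z)) y ≠ 0 := by
  by_contra hn
  push Not at hn
  apply h
  have h1 : w = ∑ z ∈ w.support, sgl z (w z) := by
    have := (DFinsupp.sum_single (f := w)).symm
    exact this
  have h2 : f w = ∑ z ∈ w.support, f (sgl z (w z)) := by
    conv_lhs => rw [h1]
    exact map_sum f _ _
  rw [h2, DFinsupp.finsetSum_apply]
  refine Finset.sum_eq_zero fun z hz => hn z ?_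
  exact DFinsupp.mem_support_iff.1 hz

theorem Sup.mul {R S : Λ → Λ → Prop} {f g : AddMonoid.End (Π₀ x, V x)} (hf : Sup R f)
    (hg : Sup S g) : Sup (fun y x => ∃ z, R y z ∧ S z x) (f * g) := by
  intro x v y hy
  obtain ⟨z, h1, h2⟩ := exists_entry f (g (sgl x v)) y hy
  exact ⟨z, hf z _ y h2, hg x v z h1⟩

theorem Sup.mul' {R S T : Λ → Λ → Prop} {f g : AddMonoid.End (Π₀ x, V x)} (hf : Sup R f)
    (hg : Sup S g) (h : ∀ y z x, R y z → S z x → T y x) : Sup T (f * g) :=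
  (hf.mul hg).mono fun y x ⟨z, h1, h2⟩ => h y z x h1 h2

theorem sgl_self (x : Λ) (v : V x) : sgl x v x = v := by
  classical
  show DFinsupp.single x v x = v
  exact DFinsupp.single_eq_same

theorem sgl_ne {x y : Λ} (v : V x) (h : y ≠ x) : sgl x v y = 0 := by
  classical
  show DFinsupp.single x v y = 0
  exact DFinsupp.single_eq_of_ne h

theorem Sup.one : Sup (fun y x => y = x) (1 : AddMonoid.End (Π₀ x, V x)) := by
  intro x v y hy
  by_contra h
  exact hy (sgl_ne v h)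

theorem eq_zero_of_sup {R : Λ → Λ → Prop} {f : AddMonoid.End (Π₀ x, V x)} (hf : Sup R f)
    (h : ∀ y x, ¬ R y x) : f = 0 := by
  classical
  have h1 : ∀ x (v : V x), f (sgl x v) = 0 := by
    intro x v
    ext y
    by_contra h2
    exact h y x (hf x v y h2)
  apply DFinsupp.addHom_ext
  intro x v
  have h2 := h1 x v
  have h3 : DFinsupp.single x v = sgl x v := by
    unfold sgl
    congr
  rw [h3]
  exact h2

/-! ### units -/

/-- the off-diagonal entries of `a` and of its inverse satisfy `R` -/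
def Pat (R : Λ → Λ → Prop) (a : (AddMonoid.End (Π₀ x, V x))ˣ) : Prop :=
  Sup R ((a : AddMonoid.End (Π₀ x, V x)) - 1) ∧
    Sup R (((a⁻¹ : (AddMonoid.End (Π₀ x, V x))ˣ) : AddMonoid.End (Π₀ x, V x)) - 1)

theorem Pat.mono {R S : Λ → Λ → Prop} (h : ∀ y x, R y x → S y x)
    {a : (AddMonoid.End (Π₀ x, V x))ˣ} (hf : Pat R a) : Pat S a :=
  ⟨hf.1.mono h, hf.2.mono h⟩

theorem Pat.inter {R S : Λ → Λ → Prop} {a : (AddMonoid.End (Π₀ x, V x))ˣ} (hf : Pat R a)
    (hg : Pat S a) : Pat (fun y x => R y x ∧ S y x) a :=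
  ⟨hf.1.inter hg.1, hf.2.inter hg.2⟩

theorem Pat.one (R : Λ → Λ → Prop) : Pat R (1 : (AddMonoid.End (Π₀ x, V x))ˣ) := by
  constructor
  · rw [Units.val_one, sub_self]
    exact Sup.zero R
  · rw [inv_one, Units.val_one, sub_self]
    exact Sup.zero R

theorem Pat.inv {R : Λ → Λ → Prop} {a : (AddMonoid.End (Π₀ x, V x))ˣ} (ha : Pat R a) :
    Pat R a⁻¹ := ⟨ha.2, by rw [inv_inv]; exact ha.1⟩

theorem sup_mul_sub {R : Λ → Λ → Prop} (hR : ∀ y z x, R y z → R z x → R y x)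
    {a b : AddMonoid.End (Π₀ x, V x)} (ha : Sup R (a - 1)) (hb : Sup R (b - 1)) :
    Sup R (a * b - 1) := by
  rw [ring_mul]
  exact (ha.add hb).add (ha.mul' hb hR)

theorem Pat.mul {R : Λ → Λ → Prop} (hR : ∀ y z x, R y z → R z x → R y x)
    {a b : (AddMonoid.End (Π₀ x, V x))ˣ} (ha : Pat R a) (hb : Pat R b) : Pat R (a * b) := by
  constructor
  · rw [Units.val_mul]
    exact sup_mul_sub hR ha.1 hb.1
  · rw [mul_inv_rev, Units.val_mul]
    exact sup_mul_sub hR hb.2 ha.2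

/-- the subgroup given by a transitive relation -/
def patG (V : Λ → Type) [∀ x, AddCommGroup (V x)] (R : Λ → Λ → Prop)
    (hR : ∀ y z x, R y z → R z x → R y x) :
    Subgroup (AddMonoid.End (Π₀ x, V x))ˣ where
  carrier := {a | Pat R a}
  one_mem' := Pat.one R
  mul_mem' ha hb := ha.mul hR hb
  inv_mem' ha := ha.inv

theorem Pat.eq_one {R : Λ → Λ → Prop} {a : (AddMonoid.End (Π₀ x, V x))ˣ} (ha : Pat R a)
    (h : ∀ y x, ¬ R y x) : a = 1 := by
  apply Units.ext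
  rw [Units.val_one]
  exact sub_eq_zero.1 (eq_zero_of_sup ha.1 h)

theorem sup_comm {R0 R1 T : Λ → Λ → Prop} (h10 : ∀ y x, R1 y x → R0 y x)
    (h0 : ∀ y z x, R0 y z → R0 z x → R0 y x) (h11 : ∀ y z x, R1 y z → R1 z x → T y x)
    (hT : ∀ y z x, T y z → R0 z x → T y x)
    {a b : (AddMonoid.End (Π₀ x, V x))ˣ} (ha : Pat R1 a) (hb : Pat R1 b) :
    Sup T (((⁅a, b⁆ : (AddMonoid.End (Π₀ x, V x))ˣ) : AddMonoid.End (Π₀ x, V x)) - 1) := by
  have h1 : Sup R0 (((a⁻¹ * b⁻¹ : (AddMonoid.End (Π₀ x, V x))ˣ) : AddMonoid.End (Π₀ x, V x)) - 1) :=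
    ((ha.inv.mono h10).mul h0 (hb.inv.mono h10)).1
  have h2 : Sup T (((a : AddMonoid.End (Π₀ x, V x)) - 1) * ((b : AddMonoid.End (Π₀ x, V x)) - 1) -
      ((b : AddMonoid.End (Π₀ x, V x)) - 1) * ((a : AddMonoid.End (Π₀ x, V x)) - 1)) :=
    (ha.1.mul' hb.1 h11).sub (hb.1.mul' ha.1 h11)
  have h3 : ((⁅a, b⁆ : (AddMonoid.End (Π₀ x, V x))ˣ) : AddMonoid.End (Π₀ x, V x)) - 1 =
      (((a : AddMonoid.End (Π₀ x, V x)) - 1) * ((b : AddMonoid.End (Π₀ x, V x)) - 1) -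
      ((b : AddMonoid.End (Π₀ x, V x)) - 1) * ((a : AddMonoid.End (Π₀ x, V x)) - 1)) +
      (((a : AddMonoid.End (Π₀ x, V x)) - 1) * ((b : AddMonoid.End (Π₀ x, V x)) - 1) -
      ((b : AddMonoid.End (Π₀ x, V x)) - 1) * ((a : AddMonoid.End (Π₀ x, V x)) - 1)) *
      (((a⁻¹ * b⁻¹ : (AddMonoid.End (Π₀ x, V x))ˣ) : AddMonoid.End (Π₀ x, V x)) - 1) := by
    have h4 : (b : AddMonoid.End (Π₀ x, V x)) * (a : AddMonoid.End (Π₀ x, V x)) *
        ((a⁻¹ * b⁻¹ : (AddMonoid.End (Π₀ x, V x))ˣ) : AddMonoid.End (Π₀ x, V x)) = 1 := by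
      rw [← Units.val_mul, ← Units.val_mul, ← Units.val_one]
      congr 1
      group
    have h5 : ((⁅a, b⁆ : (AddMonoid.End (Π₀ x, V x))ˣ) : AddMonoid.End (Π₀ x, V x)) =
        (a : AddMonoid.End (Π₀ x, V x)) * (b : AddMonoid.End (Π₀ x, V x)) *
        ((a⁻¹ * b⁻¹ : (AddMonoid.End (Π₀ x, V x))ˣ) : AddMonoid.End (Π₀ x, V x)) := by
      rw [← Units.val_mul, ← Units.val_mul]
      congr 1
    rw [h5]
    exact ring_comm _ _ _ h4
  rw [h3]
  exact h2.add (h2.mul' h1 hT)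

theorem Pat.comm {R0 R1 T : Λ → Λ → Prop} (h10 : ∀ y x, R1 y x → R0 y x)
    (h0 : ∀ y z x, R0 y z → R0 z x → R0 y x) (h11 : ∀ y z x, R1 y z → R1 z x → T y x)
    (hT : ∀ y z x, T y z → R0 z x → T y x)
    {a b : (AddMonoid.End (Π₀ x, V x))ˣ} (ha : Pat R1 a) (hb : Pat R1 b) : Pat T ⁅a, b⁆ := by
  refine ⟨sup_comm h10 h0 h11 hT ha hb, ?_⟩
  rw [commutatorElement_inv]
  exact sup_comm h10 h0 h11 hT hb ha

/-- the terms of the derived series -/
theorem pat_derived {X : Type} [Group X] (φ : X →* (AddMonoid.End (Π₀ x, V x))ˣ)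
    (R : ℕ → Λ → Λ → Prop) (h10 : ∀ k y x, R k y x → R 0 y x)
    (h0 : ∀ y z x, R 0 y z → R 0 z x → R 0 y x)
    (h11 : ∀ k y z x, R k y z → R k z x → R (k + 1) y x)
    (hT : ∀ k y z x, R (k + 1) y z → R 0 z x → R (k + 1) y x)
    (hX : ∀ x, Pat (R 0) (φ x)) (k : ℕ) : ∀ x ∈ derivedSeries X k, Pat (R k) (φ x) := by
  induction k with
  | zero => intro x _; exact hX x
  | succ k ih =>
    have h3 : ∀ y z x, R (k + 1) y z → R (k + 1) z x → R (k + 1) y x :=
      fun y z x h1 h2 => hT k y z x h1 (h10 _ _ _ h2)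
    have h4 : derivedSeries X (k + 1) ≤ (patG V (R (k + 1)) h3).comap φ := by
      rw [derivedSeries_succ, Subgroup.commutator_le]
      intro a ha b hb
      show Pat (R (k + 1)) (φ ⁅a, b⁆)
      rw [map_commutatorElement]
      exact (ih a ha).comm (h10 k) h0 (h11 k) (hT k) (ih b hb)
    exact fun x hx => h4 hx

end Pool.Agent.U89.ML
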