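import Pool.Agent.U89.ML.Main

/-!
# McLain kernels: the final form
-/

set_option autoImplicit false

namespace Pool.Agent.U89.ML

open Pool.Agent.Y110.FJ

/-- the group of the automorphisms of the direct sum of the groups `V x` -/
def AutW {Λ : Type} (V : Λ → Type) [∀ x, AddCommGroup (V x)] : Type :=
  (AddMonoid.End (Π₀ x, V x))ˣ

noncomputable instance {Λ : Type} (V : Λ → Type) [∀ x, AddCommGroup (V x)] : Group (AutW V) :=
  @Units.instGroup (AddMonoid.End (Π₀ x, V x)) _

/-- the component at `y` of `a v`, where `v` is in the summand of `x` -/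
noncomputable def AutW.entry {Λ : Type} {V : Λ → Type} [∀ x, AddCommGroup (V x)] (a : AutW V)
    (y x : Λ) (v : V x) : V y := (Units.val a : AddMonoid.End (Π₀ x, V x)) (sgl x v) y

/-- there is a finite set `J` such that `a - 1` maps the summand of `x` to zero if `x ∉ J` and to the
sum of the summands of all `y ∈ J`, `y < x`, if `x ∈ J` -/
def FinitaryUnitriangular {Λ : Type} [PartialOrder Λ] {V : Λ → Type} [∀ x, AddCommGroup (V x)]
    (a : AutW V) : Prop :=
  ∃ J : Set Λ, J.Finite ∧ ∀ (y x : Λ) (v : V x), a.entry y x v ≠ sgl x v y → y ∈ J ∧ x ∈ J ∧ y < x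

/-- `P` maps the summand of `x` to the summand of `σ x` -/
def Monomial {Λ : Type} [PartialOrder Λ] {V : Λ → Type} [∀ x, AddCommGroup (V x)] (σ : Λ ≃o Λ)
    (P : AutW V) : Prop :=
  ∀ (y x : Λ) (v : V x), P.entry y x v ≠ 0 → y = σ x

/-- the product of a finitary unitriangular and a monomial automorphism -/
def FinitaryMonomial {Λ : Type} [PartialOrder Λ] {V : Λ → Type} [∀ x, AddCommGroup (V x)]
    (Q : AutW V) : Prop :=
  ∃ (σ : Λ ≃o Λ) (P u : AutW V), Monomial σ P ∧ FinitaryUnitriangular u ∧ Q = u * P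

/-- an injective homomorphism from `N` to the finitary unitriangular automorphisms -/
structure FaithfulUnitriangular {Λ : Type} [PartialOrder Λ] {V : Λ → Type}
    [∀ x, AddCommGroup (V x)] {N : Type} [Group N] (j : N → AutW V) : Prop where
  map_mul : ∀ m n, j (m * n) = j m * j n
  injective : Function.Injective j
  uni : ∀ n, FinitaryUnitriangular (j n)

/-- the conjugate of `n ∈ N` by `g` -/
def conjN {G : Type} [Group G] (N : Subgroup G) [hN : N.Normal] (g : G) (n : N) : N :=
  ⟨g * n * g⁻¹, hN.conj_mem n n.2 g⟩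

/-- on the set `E` the conjugation by `g` is the conjugation by `Q` -/
def InducedOn {Λ : Type} {V : Λ → Type} [∀ x, AddCommGroup (V x)] {G : Type}
    [Group G] {N : Subgroup G} [N.Normal] (j : N → AutW V) (g : G) (E : Set N) (Q : AutW V) : Prop :=
  ∀ n ∈ E, j (conjN N g n) = Q * j n * Q⁻¹

theorem finUni_of {Λ : Type} [PartialOrder Λ] {V : Λ → Type} [∀ x, AddCommGroup (V x)]
    {a : AutW V} (h : FinitaryUnitriangular a) : FinUni (V := V) a := by
  obtain ⟨J, hJ, h1⟩ := h
  refine ⟨J, hJ, fun x v y hy => h1 y x v fun h2 => hy ?_⟩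
  have h3 : (Units.val (α := AddMonoid.End (Π₀ x, V x)) a) (sgl x v) y = sgl x v y := h2
  show ((Units.val (α := AddMonoid.End (Π₀ x, V x)) a) (sgl x v) - sgl x v) y = 0
  rw [DFinsupp.sub_apply, h3, sub_self]

theorem mclain (C : ∀ (G : Type) [Group G], Prop) (hC : ClosedE C)
    (hsol : ∀ (S : Type) [Group S], Group.IsSolvable S → C S)
    (Λ : Type) [PartialOrder Λ] (V : Λ → Type) [∀ x, AddCommGroup (V x)]
    (G : Type) [Group G] (N : Subgroup G) [N.Normal] (hQ : C (G ⧸ N))
    (j : N → AutW V) (hj : FaithfulUnitriangular j)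
    (hconj : ∀ (g : G) (E : Set N), E.Finite → ∃ Q, FinitaryMonomial Q ∧ InducedOn j g E Q) :
    C G := by
  refine mclain_main (V := V) hC hsol N hQ (MonoidHom.mk' j hj.map_mul) hj.injective
    (fun n => finUni_of (hj.uni n)) ?_
  intro g E hE
  obtain ⟨_, ⟨σ, P, u, hP, hu, rfl⟩, h⟩ := hconj g E hE
  refine ⟨σ, P, u, fun x v y hy => hP y x v hy, finUni_of hu, ?_⟩
  intro n hn m hm
  have h1 : m = conjN N g n := Subtype.ext hm
  rw [h1]
  exact h n hn

end Pool.Agent.U89.ML
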