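import Pool.Agent.R942.FJ.Det

/-!
# McLain kernels: group theory
-/

set_option autoImplicit false

namespace Pool.Agent.U89.ML

open Pool.Agent.Y110.FJ
open Pool.Agent.R942.FJ

variable {C : ∀ (G : Type) [Group G], Prop}

/-- extensions with solvable kernel -/
theorem solv_kernel (hC : ClosedE C) (hsol : ∀ (S : Type) [Group S], Group.IsSolvable S → C S)
    {G : Type} [Group G] (K : Subgroup G) [K.Normal] (hK : Group.IsSolvable K) (hQ : C (G ⧸ K)) :
    C G :=
  main_detected hC K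
    (fun g _ _ _ => ⟨_, inferInstance, MonoidHom.id _, hsol _ (solv_sup K hK g), fun _ _ h => h⟩) hQ

/-- the group lemma -/
theorem grp_main (hC : ClosedE C) (hsol : ∀ (S : Type) [Group S], Group.IsSolvable S → C S)
    {H : Type} [Group H] (A K : Subgroup H) [A.Normal] [K.Normal] (hK : Group.IsSolvable K)
    (hHA : Group.IsSolvable (H ⧸ A))
    (hE : ∀ E : Set A, E.Finite → ∃ k : ℕ, ∀ x ∈ Subgroup.closure E, ∀ y ∈ derivedSeries A k,
      ((x : H)⁻¹ * y) ∈ K → (x : H) ∈ K) : C H := by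
  refine solv_kernel hC hsol K hK ?_
  obtain ⟨N, hN⟩ : ∃ N : Subgroup (H ⧸ K), N = A.map (QuotientGroup.mk' K) := ⟨_, rfl⟩
  have hNn : N.Normal := by
    rw [hN]
    exact Subgroup.Normal.map inferInstance _ (QuotientGroup.mk'_surjective K)
  let φ : A →* N := ((QuotientGroup.mk' K).comp A.subtype).codRestrict N fun x => by
    rw [hN]; exact ⟨x, x.2, rfl⟩
  have hφ : Function.Surjective φ := by
    rintro ⟨y, hy⟩
    have hy' := hy
    rw [hN] at hy'
    obtain ⟨x, hx, hxy⟩ := hy'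
    exact ⟨⟨x, hx⟩, Subtype.ext hxy⟩
  refine main_detected hC N (detected_derived hsol N ?_) ?_
  · intro E' hE'
    choose s hs using hφ
    obtain ⟨k, hk⟩ := hE (s '' E') (hE'.image s)
    refine ⟨k, ?_⟩
    intro x hx hxk
    have h1 : E' = φ '' (s '' E') := by
      rw [← Set.image_comp]
      ext z
      constructor
      · intro hz
        exact ⟨z, hz, hs z⟩
      · rintro ⟨w, hw, hwz⟩
        have h2 : w = z := (hs w).symm.trans hwz
        exact h2 ▸ hw
    rw [h1, ← MonoidHom.map_closure] at hx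
    obtain ⟨a, ha, hax⟩ := hx
    rw [← map_derivedSeries_eq (fun z => ⟨s z, hs z⟩ : Function.Surjective φ)] at hxk
    obtain ⟨b, hb, hbx⟩ := hxk
    have h3 : ((a : H)⁻¹ * b) ∈ K := by
      rw [← QuotientGroup.eq]
      have h4 : φ a = φ b := hax.trans hbx.symm
      exact congrArg Subtype.val h4
    have h5 := hk a ha b hb h3
    rw [← hax]
    apply Subtype.ext
    show QuotientGroup.mk' K (a : H) = 1
    exact (QuotientGroup.eq_one_iff _).2 h5
  · apply hsol
    let ψ : H ⧸ A →* (H ⧸ K) ⧸ N := QuotientGroup.lift A ((QuotientGroup.mk' N).comp (QuotientGroup.mk' K))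
      (fun a ha => (QuotientGroup.eq_one_iff _).2 (by rw [hN]; exact ⟨a, ha, rfl⟩))
    have hψ : Function.Surjective ψ := by
      intro z
      obtain ⟨y, rfl⟩ := QuotientGroup.mk'_surjective N z
      obtain ⟨x, rfl⟩ := QuotientGroup.mk'_surjective K y
      exact ⟨QuotientGroup.mk' A x, rfl⟩
    exact Group.isSolvable_of_surjective hψ

/-- `A` normalized by `p`: the group generated by them modulo `A` is solvable -/
theorem sup_quot {U : Type} [Group U] (A : Subgroup U) (p : U)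
    [hn : (A.subgroupOf (A ⊔ Subgroup.zpowers p)).Normal] :
    Group.IsSolvable (↥(A ⊔ Subgroup.zpowers p) ⧸ A.subgroupOf (A ⊔ Subgroup.zpowers p)) := by
  let H : Subgroup U := A ⊔ Subgroup.zpowers p
  let p' : H := ⟨p, Subgroup.mem_sup_right (Subgroup.mem_zpowers p)⟩
  let A' : Subgroup H := A.subgroupOf H
  have key : ∀ h : H, QuotientGroup.mk' A' h ∈ Subgroup.zpowers (QuotientGroup.mk' A' p') := by
    have h1 : H ≤ ((Subgroup.zpowers (QuotientGroup.mk' A' p')).comap (QuotientGroup.mk' A')).map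
        H.subtype := by
      refine sup_le ?_ ?_
      · intro a ha
        refine ⟨⟨a, Subgroup.mem_sup_left ha⟩, ?_, rfl⟩
        refine Subgroup.mem_comap.2 ?_
        have h2 : QuotientGroup.mk' A' ⟨a, Subgroup.mem_sup_left ha⟩ = 1 :=
          (QuotientGroup.eq_one_iff _).2 ha
        rw [h2]
        exact Subgroup.one_mem _
      · rw [Subgroup.zpowers_le]
        exact ⟨p', Subgroup.mem_zpowers _, rfl⟩
    intro h
    obtain ⟨h', hh', he⟩ := h1 h.2
    have h3 : h' = h := Subtype.ext he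
    exact h3 ▸ hh'
  refine Group.isSolvable_of_comm ?_
  intro a b
  obtain ⟨x, rfl⟩ := QuotientGroup.mk'_surjective A' a
  obtain ⟨y, rfl⟩ := QuotientGroup.mk'_surjective A' b
  obtain ⟨k, hk⟩ := Subgroup.mem_zpowers_iff.1 (key x)
  obtain ⟨l, hl⟩ := Subgroup.mem_zpowers_iff.1 (key y)
  rw [← hk, ← hl, ← zpow_add, ← zpow_add, add_comm]

/-- the form for the application -/
theorem grp_sup (hC : ClosedE C) (hsol : ∀ (S : Type) [Group S], Group.IsSolvable S → C S)
    {U : Type} [Group U] (A K : Subgroup U) (p : U) (hKA : K ≤ A)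
    (hA : ∀ a ∈ A, ∀ b ∈ K, a * b * a⁻¹ ∈ K)
    (hpA : ∀ a ∈ A, p * a * p⁻¹ ∈ A) (hpA' : ∀ a ∈ A, p⁻¹ * a * p ∈ A)
    (hpK : ∀ a ∈ K, p * a * p⁻¹ ∈ K) (hpK' : ∀ a ∈ K, p⁻¹ * a * p ∈ K)
    (hK : Group.IsSolvable K)
    (hE : ∀ E : Set A, E.Finite → ∃ k : ℕ, ∀ x ∈ Subgroup.closure E, ∀ y ∈ derivedSeries A k,
      ((x : U)⁻¹ * y) ∈ K → (x : U) ∈ K) : C ↥(A ⊔ Subgroup.zpowers p) := by
  have norm : ∀ B : Subgroup U, (∀ a ∈ A, ∀ b ∈ B, a * b * a⁻¹ ∈ B) →
      (∀ a ∈ B, p * a * p⁻¹ ∈ B) → (∀ a ∈ B, p⁻¹ * a * p ∈ B) →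
      (B.subgroupOf (A ⊔ Subgroup.zpowers p)).Normal := by
    intro B h1 h2 h3
    have h4 : A ⊔ Subgroup.zpowers p ≤ Subgroup.normalizer (B : Set U) := by
      refine sup_le ?_ ?_
      · intro a ha
        rw [Subgroup.mem_normalizer_iff]
        intro b
        refine ⟨h1 a ha b, fun hb => ?_⟩
        have h5 := h1 a⁻¹ (A.inv_mem ha) _ hb
        have h6 : a⁻¹ * (a * b * a⁻¹) * a⁻¹⁻¹ = b := by group
        rwa [h6] at h5
      · rw [Subgroup.zpowers_le, Subgroup.mem_normalizer_iff]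
        intro b
        refine ⟨h2 b, fun hb => ?_⟩
        have h5 := h3 _ hb
        have h6 : p⁻¹ * (p * b * p⁻¹) * p = b := by group
        rwa [h6] at h5
    constructor
    intro b hb g
    have h7 := (Subgroup.mem_normalizer_iff.1 (h4 g.2) (b : U)).1 hb
    exact h7
  have hAn : (A.subgroupOf (A ⊔ Subgroup.zpowers p)).Normal :=
    norm A (fun a ha b hb => A.mul_mem (A.mul_mem ha hb) (A.inv_mem ha)) hpA hpA'
  have hKn : (K.subgroupOf (A ⊔ Subgroup.zpowers p)).Normal := norm K hA hpK hpK'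
  have hKle : K ≤ A ⊔ Subgroup.zpowers p := hKA.trans le_sup_left
  refine grp_main hC hsol (A.subgroupOf (A ⊔ Subgroup.zpowers p))
    (K.subgroupOf (A ⊔ Subgroup.zpowers p)) ?_ (sup_quot A p) ?_
  · exact Group.isSolvable_of_isSolvable_injective
      (f := (Subgroup.subgroupOfEquivOfLe hKle).toMonoidHom) (Subgroup.subgroupOfEquivOfLe hKle).injective
  · intro E hEf
    let e : A.subgroupOf (A ⊔ Subgroup.zpowers p) ≃* A := Subgroup.subgroupOfEquivOfLe le_sup_left
    obtain ⟨k, hk⟩ := hE (e '' E) (hEf.image e)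
    refine ⟨k, fun x hx y hy hxy => ?_⟩
    have h1 : e x ∈ Subgroup.closure (e '' E) := by
      have h2 : Subgroup.closure (e '' E) = (Subgroup.closure E).map e.toMonoidHom :=
        (MonoidHom.map_closure e.toMonoidHom E).symm
      rw [h2]
      exact ⟨x, hx, rfl⟩
    have h3 : e y ∈ derivedSeries A k := by
      have h4 := map_derivedSeries_eq (f := e.toMonoidHom) e.surjective k
      rw [← h4]
      exact ⟨y, hy, rfl⟩
    exact hk (e x) h1 (e y) h3 hxy

end Pool.Agent.U89.ML
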