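import Mathlib

/-!
# McLain kernels: automorphisms of partially ordered sets
-/

set_option autoImplicit false

namespace Pool.Agent.U89.ML

variable {Λ : Type} [PartialOrder Λ]

theorem zadd (s : Λ ≃o Λ) (m n : ℤ) (x : Λ) : (s ^ (m + n) : Λ ≃o Λ) x = (s ^ m : Λ ≃o Λ) ((s ^ n : Λ ≃o Λ) x) := by
  rw [zpow_add]
  rfl

theorem zzero (s : Λ ≃o Λ) (x : Λ) : (s ^ (0 : ℤ) : Λ ≃o Λ) x = x := by
  rw [zpow_zero]
  rfl

theorem zle (s : Λ ≃o Λ) (m : ℤ) {x y : Λ} (h : x ≤ y) : (s ^ m : Λ ≃o Λ) x ≤ (s ^ m : Λ ≃o Λ) y :=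
  (s ^ m : Λ ≃o Λ).monotone h

theorem zneg_le (s : Λ ≃o Λ) (m : ℤ) {x y : Λ} (h : x ≤ (s ^ m : Λ ≃o Λ) y) :
    (s ^ (-m) : Λ ≃o Λ) x ≤ y := by
  have h1 := zle s (-m) h
  rwa [← zadd, neg_add_cancel, zzero] at h1

theorem le_zneg (s : Λ ≃o Λ) (m : ℤ) {x y : Λ} (h : (s ^ m : Λ ≃o Λ) x ≤ y) :
    x ≤ (s ^ (-m) : Λ ≃o Λ) y := by
  have h1 := zle s (-m) h
  rwa [← zadd, neg_add_cancel, zzero] at h1

/-- iteration -/
theorem iter_le (s : Λ ≃o Λ) {m : ℤ} {x : Λ} (h : x ≤ (s ^ m : Λ ≃o Λ) x) (k : ℕ) :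
    x ≤ (s ^ (k * m : ℤ) : Λ ≃o Λ) x := by
  induction k with
  | zero => rw [Nat.cast_zero, zero_mul, zzero]
  | succ k ih =>
    have h1 : ((k + 1 : ℕ) * m : ℤ) = k * m + m := by push_cast; ring
    rw [h1, zadd]
    exact ih.trans (zle s _ h)

theorem iter_ge (s : Λ ≃o Λ) {m : ℤ} {x : Λ} (h : (s ^ m : Λ ≃o Λ) x ≤ x) (k : ℕ) :
    (s ^ (k * m : ℤ) : Λ ≃o Λ) x ≤ x := by
  induction k with
  | zero => rw [Nat.cast_zero, zero_mul, zzero]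
  | succ k ih =>
    have h1 : ((k + 1 : ℕ) * m : ℤ) = k * m + m := by push_cast; ring
    rw [h1, zadd]
    exact (zle s _ h).trans ih

theorem eq_of_iter (s : Λ ≃o Λ) {n e : ℤ} (hn : 0 < n) (he : 0 < e) {z : Λ}
    (h1 : z ≤ (s ^ n : Λ ≃o Λ) z) (h2 : (s ^ e : Λ ≃o Λ) z ≤ z) : (s ^ n : Λ ≃o Λ) z = z := by
  obtain ⟨N, rfl⟩ := Int.eq_ofNat_of_zero_le hn.le
  obtain ⟨M, rfl⟩ := Int.eq_ofNat_of_zero_le he.le
  have h3 := iter_le s h1 (M - 1)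
  have h4 := iter_ge s h2 N
  have hM : 1 ≤ M := by omega
  apply le_antisymm _ h1
  have h5 := zle s (N : ℤ) h3
  rw [← zadd] at h5
  have h6 : (N : ℤ) + ((M - 1 : ℕ) : ℤ) * (N : ℤ) = (N : ℤ) * (M : ℤ) := by
    push_cast [hM]
    ring
  rw [h6] at h5
  exact h5.trans h4

theorem bounded_diff (s : Λ ≃o Λ) {n : ℤ} (hn : 0 < n) {y x : Λ} (hyx : y < x)
    (hT : x ≤ (s ^ n : Λ ≃o Λ) y) {z : Λ} (h1 : y ≤ z) (h2 : z ≤ x) {d : ℤ}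
    (h4 : (s ^ d : Λ ≃o Λ) z ≤ x) : d ≤ n := by
  by_contra hd
  push Not at hd
  have h5 : z ≤ (s ^ n : Λ ≃o Λ) z := h2.trans (hT.trans (zle s n h1))
  have h6 : (s ^ (d - n) : Λ ≃o Λ) z ≤ z := by
    have h7 : (s ^ d : Λ ≃o Λ) z ≤ (s ^ n : Λ ≃o Λ) z := h4.trans (hT.trans (zle s n h1))
    have h8 := zle s (-n) h7
    rw [← zadd, ← zadd, neg_add_cancel, zzero] at h8
    have h9 : d - n = -n + d := by ring
    rw [h9]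
    exact h8
  have h7 := eq_of_iter s hn (by omega : 0 < d - n) h5 h6
  have h8 : x ≤ z := hT.trans ((zle s n h1).trans h7.le)
  have h9 : z ≤ y := by
    have h10 : z ≤ (s ^ n : Λ ≃o Λ) y := h2.trans hT
    have h11 := zneg_le s n h10
    have h12 : (s ^ (-n) : Λ ≃o Λ) z = z := by
      have h13 : (s ^ (-n) : Λ ≃o Λ) ((s ^ n : Λ ≃o Λ) z) = z := by
        rw [← zadd, neg_add_cancel, zzero]
      rwa [h7] at h13
    rwa [h12] at h11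
  exact absurd (h8.trans h9) (not_le_of_gt hyx)

theorem finite_pos (s : Λ ≃o Λ) {n : ℤ} (hn : 0 < n) {y x : Λ} (hyx : y < x)
    (hT : x ≤ (s ^ n : Λ ≃o Λ) y) (z : Λ) :
    {k : ℤ | (s ^ k : Λ ≃o Λ) z ∈ Set.Icc y x}.Finite := by
  by_cases hne : ∃ k0 : ℤ, (s ^ k0 : Λ ≃o Λ) z ∈ Set.Icc y x
  · obtain ⟨k0, h1, h2⟩ := hne
    refine (Set.finite_Icc (k0 - n) (k0 + n)).subset ?_
    rintro k ⟨h3, h4⟩
    constructor
    · have h5 := bounded_diff s hn hyx hT h3 h4 (d := k0 - k) (by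
        rw [← zadd, sub_add_cancel]
        exact h2)
      omega
    · have h5 := bounded_diff s hn hyx hT h1 h2 (d := k - k0) (by
        rw [← zadd, sub_add_cancel]
        exact h4)
      omega
  · refine (Set.finite_empty).subset ?_
    intro k hk
    exact absurd ⟨k, hk⟩ hne

theorem finite_all (s : Λ ≃o Λ) {n : ℤ} {y x : Λ} (hyx : y < x)
    (hT : x ≤ (s ^ n : Λ ≃o Λ) y) (z : Λ) :
    {k : ℤ | (s ^ k : Λ ≃o Λ) z ∈ Set.Icc y x}.Finite := by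
  rcases lt_trichotomy n 0 with hn | hn | hn
  · have h1 : ∀ m : ℤ, (s⁻¹ ^ m : Λ ≃o Λ) = (s ^ (-m) : Λ ≃o Λ) := fun m => by
      rw [inv_zpow, zpow_neg]
    have h2 := finite_pos s⁻¹ (n := -n) (by omega) hyx (by rw [h1, neg_neg]; exact hT) z
    refine (h2.image (fun k => -k)).subset ?_
    intro k hk
    refine ⟨-k, ?_, neg_neg k⟩
    show (s⁻¹ ^ (-k) : Λ ≃o Λ) z ∈ Set.Icc y x
    rw [h1, neg_neg]
    exact hk
  · rw [hn, zzero] at hT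
    exact absurd hT (not_le_of_gt hyx)
  · exact finite_pos s hn hyx hT z

/-- the orbit hull of `J` -/
def hull (s : Λ ≃o Λ) (J : Set Λ) : Set Λ := {x | ∃ k : ℤ, ∃ j ∈ J, x = (s ^ k : Λ ≃o Λ) j}

/-- `x` is below some translate of `y` -/
def Tr (s : Λ ≃o Λ) (y x : Λ) : Prop := ∃ n : ℤ, x ≤ (s ^ n : Λ ≃o Λ) y

theorem Tr.left {s : Λ ≃o Λ} {y w x : Λ} (h : Tr s y x) (hwx : w ≤ x) : Tr s y w := by
  obtain ⟨n, hn⟩ := h
  exact ⟨n, hwx.trans hn⟩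

theorem Tr.right {s : Λ ≃o Λ} {y w x : Λ} (h : Tr s y x) (hyw : y ≤ w) : Tr s w x := by
  obtain ⟨n, hn⟩ := h
  exact ⟨n, hn.trans (zle s n hyw)⟩

theorem Tr.shift {s : Λ ≃o Λ} {y x : Λ} (k : ℤ) :
    Tr s ((s ^ k : Λ ≃o Λ) y) ((s ^ k : Λ ≃o Λ) x) ↔ Tr s y x := by
  constructor
  · rintro ⟨n, hn⟩
    refine ⟨n, ?_⟩
    rw [← zadd, add_comm, zadd] at hn
    exact (s ^ k : Λ ≃o Λ).le_iff_le.1 hn
  · rintro ⟨n, hn⟩
    refine ⟨n, ?_⟩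
    rw [← zadd, add_comm, zadd]
    exact zle s k hn

theorem finite_Icc_hull (s : Λ ≃o Λ) {J : Set Λ} (hJ : J.Finite) {y x : Λ} (hyx : y < x)
    (hT : Tr s y x) : (Set.Icc y x ∩ hull s J).Finite := by
  obtain ⟨n, hn⟩ := hT
  have h1 : (⋃ j ∈ J, (fun k : ℤ => (s ^ k : Λ ≃o Λ) j) ''
      {k : ℤ | (s ^ k : Λ ≃o Λ) j ∈ Set.Icc y x}).Finite :=
    hJ.biUnion fun j _ => (finite_all s hyx hn j).image _
  refine h1.subset ?_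
  rintro w ⟨hw, k, j, hj, rfl⟩
  exact Set.mem_biUnion hj ⟨k, hw, rfl⟩

open Classical in
/-- the rank function -/
noncomputable def rho (s : Λ ≃o Λ) (J : Set Λ) (x : Λ) : ℕ :=
  {j | j ∈ J ∧ (∃ m : ℤ, (s ^ m : Λ ≃o Λ) j ≤ x) ∧ ¬ Tr s j x}.ncard

theorem rho_le (s : Λ ≃o Λ) {J : Set Λ} (hJ : J.Finite) (x : Λ) : rho s J x ≤ J.ncard :=
  Set.ncard_le_ncard (fun _ h => h.1) hJ

theorem rho_lt (s : Λ ≃o Λ) {J : Set Λ} (hJ : J.Finite) {y x : Λ} (hy : y ∈ hull s J) (hyx : y ≤ x)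
    (hT : ¬ Tr s y x) : rho s J y < rho s J x := by
  refine Set.ncard_lt_ncard ?_ (hJ.subset fun _ h => h.1)
  rw [Set.ssubset_iff_of_subset]
  · obtain ⟨k, j, hj, rfl⟩ := hy
    refine ⟨j, ⟨hj, ⟨k, hyx⟩, ?_⟩, ?_⟩
    · rintro ⟨n, hn⟩
      apply hT
      refine ⟨n - k, ?_⟩
      rw [← zadd, sub_add_cancel]
      exact hn
    · rintro ⟨-, -, h⟩
      exact h ⟨k, le_rfl⟩
  · rintro j ⟨hj, ⟨m, hm⟩, h⟩
    refine ⟨hj, ⟨m, hm.trans hyx⟩, fun h' => h (h'.left hyx)⟩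

end Pool.Agent.U89.ML
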