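import Pool.Agent.U89.ML.Grp
import Pool.Agent.U89.ML.Ent
import Pool.Agent.U89.ML.Pos

/-!
# McLain kernels: the main theorem
-/

set_option autoImplicit false

namespace Pool.Agent.U89.ML

open Pool.Agent.Y110.FJ
open Pool.Agent.R942.FJ

variable {Λ : Type} {V : Λ → Type} [∀ x, AddCommGroup (V x)]

theorem sgl_ne_zero {x : Λ} {v : V x} (h : v ≠ 0) : sgl x v ≠ 0 := by
  intro h1
  apply h
  have h2 := sgl_self x v
  rw [h1] at h2
  exact h2.symm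

/-! ### monomial automorphisms -/

/-- `P` maps the summand of `x` to the summand of `s x` -/
def Mono (s : Λ ≃ Λ) (P : (AddMonoid.End (Π₀ x, V x))ˣ) : Prop :=
  Sup (fun y x => y = s x) (P : AddMonoid.End (Π₀ x, V x))

theorem val_inv_apply (P : (AddMonoid.End (Π₀ x, V x))ˣ) (w : Π₀ x, V x) :
    (P : AddMonoid.End (Π₀ x, V x)) ((P⁻¹ : (AddMonoid.End (Π₀ x, V x))ˣ).val w) = w := by
  have h1 : (P : AddMonoid.End (Π₀ x, V x)) * (P⁻¹ : (AddMonoid.End (Π₀ x, V x))ˣ).val = 1 :=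
    P.mul_inv
  exact congrArg (fun f : AddMonoid.End (Π₀ x, V x) => f w) h1

theorem inv_val_apply (P : (AddMonoid.End (Π₀ x, V x))ˣ) (w : Π₀ x, V x) :
    (P⁻¹ : (AddMonoid.End (Π₀ x, V x))ˣ).val ((P : AddMonoid.End (Π₀ x, V x)) w) = w := by
  have h1 : (P⁻¹ : (AddMonoid.End (Π₀ x, V x))ˣ).val * (P : AddMonoid.End (Π₀ x, V x)) = 1 :=
    P.inv_mul
  exact congrArg (fun f : AddMonoid.End (Π₀ x, V x) => f w) h1

theorem Mono.inv {s : Λ ≃ Λ} {P : (AddMonoid.End (Π₀ x, V x))ˣ} (hP : Mono s P) :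
    Sup (fun y x => y = s.symm x) (P⁻¹ : (AddMonoid.End (Π₀ x, V x))ˣ).val := by
  intro x v z hz
  by_contra hne
  obtain ⟨w, hw⟩ : ∃ w, w = (P⁻¹ : (AddMonoid.End (Π₀ x, V x))ˣ).val (sgl x v) := ⟨_, rfl⟩
  have hPw : (P : AddMonoid.End (Π₀ x, V x)) w = sgl x v := by rw [hw]; exact val_inv_apply P _
  rw [← hw] at hz
  have h1 : (P : AddMonoid.End (Π₀ x, V x)) (w - sgl z (w z)) (s z) = 0 := by
    by_contra h
    obtain ⟨z', h2, h3⟩ := exists_entry _ _ _ h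
    have h4 : s z = s z' := hP z' _ _ h3
    have h5 : z = z' := s.injective h4
    subst h5
    apply h2
    rw [DFinsupp.sub_apply, sgl_self, sub_self]
  have h2 : (P : AddMonoid.End (Π₀ x, V x)) (sgl z (w z)) (s z) = 0 := by
    have h3 : (P : AddMonoid.End (Π₀ x, V x)) (w - sgl z (w z)) =
        sgl x v - (P : AddMonoid.End (Π₀ x, V x)) (sgl z (w z)) := by
      rw [← hPw]
      exact map_sub (P : AddMonoid.End (Π₀ x, V x)) _ _
    rw [h3, DFinsupp.sub_apply, sgl_ne v (fun h => hne (by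
      rw [← h]
      exact (s.symm_apply_apply z).symm)), zero_sub, neg_eq_zero] at h1
    exact h1
  have h3 : (P : AddMonoid.End (Π₀ x, V x)) (sgl z (w z)) = 0 := by
    ext y
    by_contra h4
    have h5 : y = s z := hP z _ y h4
    subst h5
    exact h4 h2
  have h4 := inv_val_apply P (sgl z (w z))
  rw [h3] at h4
  have h5 : (P⁻¹ : (AddMonoid.End (Π₀ x, V x))ˣ).val 0 = 0 := map_zero _
  rw [h5] at h4
  exact sgl_ne_zero hz h4.symm

theorem ring_conj' {A : Type} [Ring A] (a b c : A) (h : a * c = 1) :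
    a * b * c - 1 = a * (b - 1) * c := by
  have h6 : a * b * c - 1 = a * b * c - a * c := by rw [h]
  rw [h6]
  noncomm_ring

theorem sup_conj {s : Λ ≃ Λ} {P Q : (AddMonoid.End (Π₀ x, V x))ˣ} (hPQ : P * Q = 1)
    (hP : Sup (fun y x => y = s x) (P : AddMonoid.End (Π₀ x, V x)))
    (hQ : Sup (fun y x => y = s.symm x) (Q : AddMonoid.End (Π₀ x, V x)))
    {R : Λ → Λ → Prop} {a : (AddMonoid.End (Π₀ x, V x))ˣ}
    (ha : Sup R ((a : AddMonoid.End (Π₀ x, V x)) - 1)) :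
    Sup (fun y x => R (s.symm y) (s.symm x))
      (((P * a * Q : (AddMonoid.End (Π₀ x, V x))ˣ) : AddMonoid.End (Π₀ x, V x)) - 1) := by
  rw [Units.val_mul, Units.val_mul, ring_conj' _ _ _ (by rw [← Units.val_mul, hPQ, Units.val_one])]
  refine (hP.mul ha).mul' hQ ?_
  rintro y z x ⟨w, h1, h2⟩ h3
  rw [h1, s.symm_apply_apply, ← h3]
  exact h2

theorem pat_conj {s : Λ ≃ Λ} {P Q : (AddMonoid.End (Π₀ x, V x))ˣ} (hPQ : P * Q = 1)
    (hP : Sup (fun y x => y = s x) (P : AddMonoid.End (Π₀ x, V x)))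
    (hQ : Sup (fun y x => y = s.symm x) (Q : AddMonoid.End (Π₀ x, V x)))
    {R : Λ → Λ → Prop} {a : (AddMonoid.End (Π₀ x, V x))ˣ} (ha : Pat R a) :
    Pat (fun y x => R (s.symm y) (s.symm x)) (P * a * Q) := by
  refine ⟨sup_conj hPQ hP hQ ha.1, ?_⟩
  have h1 : (P * a * Q)⁻¹ = P * a⁻¹ * Q := by
    have h2 : Q = P⁻¹ := eq_inv_of_mul_eq_one_right hPQ
    rw [h2]
    group
  rw [h1]
  exact sup_conj hPQ hP hQ ha.2

/-! ### finitary unitriangular automorphisms -/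

section uni

/-- finitary automorphisms with off-diagonal entries in `Q` -/
def ufin (V : Λ → Type) [∀ x, AddCommGroup (V x)] (Q : Λ → Λ → Prop)
    (hQ : ∀ y z x, Q y z → Q z x → Q y x) : Subgroup (AddMonoid.End (Π₀ x, V x))ˣ where
  carrier := {a | ∃ J : Set Λ, J.Finite ∧ Pat (fun y x => y ∈ J ∧ x ∈ J ∧ Q y x) a}
  one_mem' := ⟨∅, Set.finite_empty, Pat.one _⟩
  mul_mem' := by
    rintro a b ⟨J, hJ, ha⟩ ⟨J', hJ', hb⟩
    refine ⟨J ∪ J', hJ.union hJ', ?_⟩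
    refine Pat.mul ?_ (ha.mono ?_) (hb.mono ?_)
    · rintro y z x ⟨h1, h2, h3⟩ ⟨h4, h5, h6⟩
      exact ⟨h1, h5, hQ y z x h3 h6⟩
    · rintro y x ⟨h1, h2, h3⟩
      exact ⟨Or.inl h1, Or.inl h2, h3⟩
    · rintro y x ⟨h1, h2, h3⟩
      exact ⟨Or.inr h1, Or.inr h2, h3⟩
  inv_mem' := by
    rintro a ⟨J, hJ, ha⟩
    exact ⟨J, hJ, ha.inv⟩

theorem ufin_conj {Q : Λ → Λ → Prop} {hQ : ∀ y z x, Q y z → Q z x → Q y x}
    (s : Λ ≃ Λ) {P P' : (AddMonoid.End (Π₀ x, V x))ˣ} (hPQ : P * P' = 1)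
    (hP : Sup (fun y x => y = s x) (P : AddMonoid.End (Π₀ x, V x)))
    (hP' : Sup (fun y x => y = s.symm x) (P' : AddMonoid.End (Π₀ x, V x)))
    (hs : ∀ y x, Q (s.symm y) (s.symm x) → Q y x) :
    ∀ a ∈ ufin V Q hQ, P * a * P' ∈ ufin V Q hQ := by
  rintro a ⟨J, hJ, ha⟩
  refine ⟨s '' J, hJ.image s, (pat_conj hPQ hP hP' ha).mono ?_⟩
  rintro y x ⟨h1, h2, h3⟩
  exact ⟨⟨_, h1, s.apply_symm_apply y⟩, ⟨_, h2, s.apply_symm_apply x⟩, hs y x h3⟩

theorem sup_ideal {R S : Λ → Λ → Prop} (hRS : ∀ y z x, R y z → S z x → S y x)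
    (hSR : ∀ y z x, S y z → R z x → S y x) {a b : (AddMonoid.End (Π₀ x, V x))ˣ}
    (ha : Pat R a) (hb : Sup S ((b : AddMonoid.End (Π₀ x, V x)) - 1)) :
    Sup S (((a * b * a⁻¹ : (AddMonoid.End (Π₀ x, V x))ˣ) : AddMonoid.End (Π₀ x, V x)) - 1) := by
  rw [Units.val_mul, Units.val_mul, ring_conj _ _ _ (Units.mul_inv a)]
  have h1 := hb.add (ha.1.mul' hb hRS)
  exact h1.add (h1.mul' ha.2 hSR)

theorem ufin_ideal {R S : Λ → Λ → Prop} {hR : ∀ y z x, R y z → R z x → R y x}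
    {hS : ∀ y z x, S y z → S z x → S y x} (hRS : ∀ y z x, R y z → S z x → S y x)
    (hSR : ∀ y z x, S y z → R z x → S y x) :
    ∀ a ∈ ufin V R hR, ∀ b ∈ ufin V S hS, a * b * a⁻¹ ∈ ufin V S hS := by
  rintro a ⟨J, hJ, ha⟩ b ⟨J', hJ', hb⟩
  have ha' : Pat (fun y x => y ∈ J ∪ J' ∧ x ∈ J ∪ J' ∧ R y x) a := ha.mono fun y x h =>
    ⟨Or.inl h.1, Or.inl h.2.1, h.2.2⟩
  have hb' : Pat (fun y x => y ∈ J ∪ J' ∧ x ∈ J ∪ J' ∧ S y x) b := hb.mono fun y x h =>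
    ⟨Or.inr h.1, Or.inr h.2.1, h.2.2⟩
  have h1 : ∀ y z x, (y ∈ J ∪ J' ∧ z ∈ J ∪ J' ∧ R y z) → (z ∈ J ∪ J' ∧ x ∈ J ∪ J' ∧ S z x) →
      (y ∈ J ∪ J' ∧ x ∈ J ∪ J' ∧ S y x) := fun y z x h h' =>
    ⟨h.1, h'.2.1, hRS y z x h.2.2 h'.2.2⟩
  have h2 : ∀ y z x, (y ∈ J ∪ J' ∧ z ∈ J ∪ J' ∧ S y z) → (z ∈ J ∪ J' ∧ x ∈ J ∪ J' ∧ R z x) →
      (y ∈ J ∪ J' ∧ x ∈ J ∪ J' ∧ S y x) := fun y z x h h' =>
    ⟨h.1, h'.2.1, hSR y z x h.2.2 h'.2.2⟩
  refine ⟨J ∪ J', hJ.union hJ', sup_ideal h1 h2 ha' hb'.1, ?_⟩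
  have h3 : (a * b * a⁻¹)⁻¹ = a * b⁻¹ * a⁻¹ := by group
  rw [h3]
  exact sup_ideal h1 h2 ha' hb'.2

end uni

variable [PartialOrder Λ]

/-- the entries outside of the diagonal of a finitary unitriangular automorphism are in `J × J` and
above the diagonal -/
def FinUni (a : (AddMonoid.End (Π₀ x, V x))ˣ) : Prop :=
  ∃ J : Set Λ, J.Finite ∧
    Sup (fun y x => y ∈ J ∧ x ∈ J ∧ y < x) ((a : AddMonoid.End (Π₀ x, V x)) - 1)

theorem FinUni.pat {a : (AddMonoid.End (Π₀ x, V x))ˣ} {J : Set Λ} (hJ : J.Finite)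
    (ha : Sup (fun y x => y ∈ J ∧ x ∈ J ∧ y < x) ((a : AddMonoid.End (Π₀ x, V x)) - 1)) :
    Pat (fun y x => y ∈ J ∧ x ∈ J ∧ y < x) a := by
  refine ⟨ha, ?_⟩
  have hring : ∀ {A : Type} [Ring A] (a b : A), a * b = 1 →
      b - 1 = -(a - 1) - (a - 1) * (b - 1) := by
    intro A _ a b h
    have h1 : -(a - 1) - (a - 1) * (b - 1) = - (a * b) + b := by noncomm_ring
    rw [h1, h]
    abel
  have h1 := hring (a : AddMonoid.End (Π₀ x, V x)) (a⁻¹ : (AddMonoid.End (Π₀ x, V x))ˣ).val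
    (Units.mul_inv a)
  have key : ∀ n : ℕ, ∀ (x : Λ) (v : V x) (y : Λ), (J ∩ Set.Ioi y).ncard ≤ n →
      ((a⁻¹ : (AddMonoid.End (Π₀ x, V x))ˣ).val - 1) (sgl x v) y ≠ 0 → y ∈ J ∧ x ∈ J ∧ y < x := by
    intro n
    induction n with
    | zero =>
      intro x v y hn hy
      by_cases h2 : ((a : AddMonoid.End (Π₀ x, V x)) - 1) (sgl x v) y = 0
      · have h3 : (((a : AddMonoid.End (Π₀ x, V x)) - 1) *
            ((a⁻¹ : (AddMonoid.End (Π₀ x, V x))ˣ).val - 1)) (sgl x v) y ≠ 0 := by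
          intro h4
          apply hy
          rw [h1]
          show (-(((a : AddMonoid.End (Π₀ x, V x)) - 1) (sgl x v)) -
            (((a : AddMonoid.End (Π₀ x, V x)) - 1) *
            ((a⁻¹ : (AddMonoid.End (Π₀ x, V x))ˣ).val - 1)) (sgl x v)) y = 0
          rw [DFinsupp.sub_apply, DFinsupp.neg_apply, h2, h4, neg_zero, sub_zero]
        obtain ⟨z, h4, h5⟩ := exists_entry ((a : AddMonoid.End (Π₀ x, V x)) - 1)
          (((a⁻¹ : (AddMonoid.End (Π₀ x, V x))ˣ).val - 1) (sgl x v)) y h3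
        obtain ⟨h6, h7, h8⟩ := ha z _ y h5
        exfalso
        have h9 : z ∈ J ∩ Set.Ioi y := ⟨h7, h8⟩
        have h10 : (J ∩ Set.Ioi y) = ∅ :=
          (Set.ncard_eq_zero (hJ.subset Set.inter_subset_left)).1 (Nat.le_zero.1 hn)
        rw [h10] at h9
        exact h9
      · exact ha x v y h2
    | succ n ih =>
      intro x v y hn hy
      by_cases h2 : ((a : AddMonoid.End (Π₀ x, V x)) - 1) (sgl x v) y = 0
      · have h3 : (((a : AddMonoid.End (Π₀ x, V x)) - 1) *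
            ((a⁻¹ : (AddMonoid.End (Π₀ x, V x))ˣ).val - 1)) (sgl x v) y ≠ 0 := by
          intro h4
          apply hy
          rw [h1]
          show (-(((a : AddMonoid.End (Π₀ x, V x)) - 1) (sgl x v)) -
            (((a : AddMonoid.End (Π₀ x, V x)) - 1) *
            ((a⁻¹ : (AddMonoid.End (Π₀ x, V x))ˣ).val - 1)) (sgl x v)) y = 0
          rw [DFinsupp.sub_apply, DFinsupp.neg_apply, h2, h4, neg_zero, sub_zero]
        obtain ⟨z, h4, h5⟩ := exists_entry ((a : AddMonoid.End (Π₀ x, V x)) - 1)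
          (((a⁻¹ : (AddMonoid.End (Π₀ x, V x))ˣ).val - 1) (sgl x v)) y h3
        obtain ⟨h6, h7, h8⟩ := ha z _ y h5
        have h9 : (J ∩ Set.Ioi z).ncard < (J ∩ Set.Ioi y).ncard := by
          refine Set.ncard_lt_ncard ?_ (hJ.subset Set.inter_subset_left)
          rw [Set.ssubset_iff_of_subset]
          · exact ⟨z, ⟨h7, h8⟩, fun h => lt_irrefl z h.2⟩
          · rintro w ⟨hw1, hw2⟩
            exact ⟨hw1, lt_trans h8 hw2⟩
        obtain ⟨h10, h11, h12⟩ := ih x v z (by omega) h4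
        exact ⟨h6, h11, h8.trans h12⟩
      · exact ha x v y h2
  intro x v y hy
  exact key _ x v y le_rfl hy

/-- relation of `A` -/
def QA (s : Λ ≃o Λ) (J : Set Λ) (y x : Λ) : Prop := y ∈ hull s J ∧ x ∈ hull s J ∧ y < x

/-- relation of `K` -/
def QK (s : Λ ≃o Λ) (J : Set Λ) (y x : Λ) : Prop := QA s J y x ∧ ¬ Tr s y x

theorem QA.trans {s : Λ ≃o Λ} {J : Set Λ} : ∀ y z x, QA s J y z → QA s J z x → QA s J y x :=
  fun _ _ _ h h' => ⟨h.1, h'.2.1, h.2.2.trans h'.2.2⟩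

theorem QK.left {s : Λ ≃o Λ} {J : Set Λ} : ∀ y z x, QA s J y z → QK s J z x → QK s J y x :=
  fun y z x h h' => ⟨QA.trans y z x h h'.1, fun hT => h'.2 (hT.right h.2.2.le)⟩

theorem QK.right {s : Λ ≃o Λ} {J : Set Λ} : ∀ y z x, QK s J y z → QA s J z x → QK s J y x :=
  fun y z x h h' => ⟨QA.trans y z x h.1 h', fun hT => h.2 (hT.left h'.2.2.le)⟩

theorem QK.trans {s : Λ ≃o Λ} {J : Set Λ} : ∀ y z x, QK s J y z → QK s J z x → QK s J y x :=
  fun y z x h h' => QK.right y z x h h'.1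

theorem hull_shift {s : Λ ≃o Λ} {J : Set Λ} (k : ℤ) {x : Λ} (h : (s ^ k : Λ ≃o Λ) x ∈ hull s J) :
    x ∈ hull s J := by
  obtain ⟨m, j, hj, h1⟩ := h
  refine ⟨-k + m, j, hj, ?_⟩
  rw [zadd, ← h1, ← zadd, neg_add_cancel, zzero]

theorem QA.shift {s : Λ ≃o Λ} {J : Set Λ} (k : ℤ) {y x : Λ}
    (h : QA s J ((s ^ k : Λ ≃o Λ) y) ((s ^ k : Λ ≃o Λ) x)) : QA s J y x :=
  ⟨hull_shift k h.1, hull_shift k h.2.1, (s ^ k : Λ ≃o Λ).lt_iff_lt.1 h.2.2⟩

theorem QK.shift {s : Λ ≃o Λ} {J : Set Λ} (k : ℤ) {y x : Λ}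
    (h : QK s J ((s ^ k : Λ ≃o Λ) y) ((s ^ k : Λ ≃o Λ) x)) : QK s J y x :=
  ⟨QA.shift k h.1, fun hT => h.2 ((Tr.shift k).2 hT)⟩

theorem K_solvable (s : Λ ≃o Λ) {J : Set Λ} (hJ : J.Finite) :
    Group.IsSolvable (ufin V (QK s J) QK.trans) := by
  refine ⟨⟨J.ncard, ?_⟩⟩
  rw [eq_bot_iff]
  intro a ha
  have h1 := pat_derived (ufin V (QK s J) QK.trans).subtype (fun k y x => rho s J y + k < rho s J x)
    (fun k y x h => by omega) (fun y z x h h' => by omega)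
    (fun k y z x h h' => by omega)
    (fun k y z x h h' => by omega) ?_ J.ncard a ha
  · rw [Subgroup.mem_bot]
    apply Subtype.ext
    refine Pat.eq_one h1 ?_
    intro y x h
    have h2 := rho_le s hJ x
    omega
  · rintro ⟨x, J', hJ', hx⟩
    refine Pat.mono ?_ hx
    rintro y x ⟨-, -, h⟩
    have h3 := rho_lt s hJ h.1.1 h.1.2.2.le h.2
    omega

/-- the relations for the derived series of `A` -/
def Psi (s : Λ ≃o Λ) (J : Set Λ) (k : ℕ) (y x : Λ) : Prop :=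
  QA s J y x ∧ (¬ Tr s y x ∨ k + 1 < (Set.Icc y x ∩ hull s J).ncard)

theorem Psi.base {s : Λ ≃o Λ} {J : Set Λ} (hJ : J.Finite) {y x : Λ} (h : QA s J y x) :
    Psi s J 0 y x := by
  refine ⟨h, ?_⟩
  by_cases hT : Tr s y x
  · right
    rw [zero_add, Set.one_lt_ncard_iff (finite_Icc_hull s hJ h.2.2 hT)]
    exact ⟨y, x, ⟨⟨le_rfl, h.2.2.le⟩, h.1⟩, ⟨⟨h.2.2.le, le_rfl⟩, h.2.1⟩, h.2.2.ne⟩
  · exact Or.inl hT

theorem Psi.succ {s : Λ ≃o Λ} {J : Set Λ} (hJ : J.Finite) (k : ℕ) :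
    ∀ y z x, Psi s J k y z → QA s J z x → Psi s J (k + 1) y x := by
  rintro y z x ⟨h1, h2⟩ h3
  have h4 := QA.trans y z x h1 h3
  refine ⟨h4, ?_⟩
  by_cases hT : Tr s y x
  · right
    have h5 : k + 1 < (Set.Icc y z ∩ hull s J).ncard := by
      rcases h2 with h2 | h2
      · exact absurd (hT.left h3.2.2.le) h2
      · exact h2
    have h6 : (Set.Icc y z ∩ hull s J).ncard < (Set.Icc y x ∩ hull s J).ncard := by
      refine Set.ncard_lt_ncard ?_ (finite_Icc_hull s hJ h4.2.2 hT)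
      rw [Set.ssubset_iff_of_subset]
      · refine ⟨x, ⟨⟨h4.2.2.le, le_rfl⟩, h3.2.1⟩, fun h => ?_⟩
        exact absurd h.1.2 (not_le_of_gt h3.2.2)
      · rintro w ⟨⟨hw1, hw2⟩, hw3⟩
        exact ⟨⟨hw1, hw2.trans h3.2.2.le⟩, hw3⟩
    omega
  · exact Or.inl hT

theorem Psi.anti {s : Λ ≃o Λ} {J : Set Λ} {k l : ℕ} (hkl : k ≤ l) {y x : Λ} (h : Psi s J l y x) :
    Psi s J k y x := ⟨h.1, h.2.imp id fun h' => by omega⟩

theorem closure_le_fin (s : Λ ≃o Λ) {J : Set Λ} (E : Set (ufin V (QA s J) QA.trans)) (hE : E.Finite) :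
    ∃ J' : Set Λ, J'.Finite ∧ ∀ x ∈ Subgroup.closure E,
      Pat (fun y x => y ∈ J' ∧ x ∈ J' ∧ QA s J y x) (x : (AddMonoid.End (Π₀ x, V x))ˣ) := by
  have h0 : ∀ e : ufin V (QA s J) QA.trans, ∃ J' : Set Λ, J'.Finite ∧
      Pat (fun y x => y ∈ J' ∧ x ∈ J' ∧ QA s J y x) (e : (AddMonoid.End (Π₀ x, V x))ˣ) :=
    fun e => e.2
  choose S hS hS' using h0
  refine ⟨⋃ e ∈ E, S e, hE.biUnion fun e _ => hS e, ?_⟩
  have h1 : Subgroup.closure E ≤ (patG V (fun y x => y ∈ (⋃ e ∈ E, S e) ∧ x ∈ (⋃ e ∈ E, S e) ∧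
      QA s J y x) (fun y z x h h' => ⟨h.1, h'.2.1, QA.trans y z x h.2.2 h'.2.2⟩)).comap
      (ufin V (QA s J) QA.trans).subtype := by
    rw [Subgroup.closure_le]
    intro e he
    refine (hS' e).mono ?_
    rintro y x ⟨hy, hx, h⟩
    exact ⟨Set.mem_biUnion he hy, Set.mem_biUnion he hx, h⟩
  exact fun x hx => h1 hx

theorem A_detect (s : Λ ≃o Λ) {J : Set Λ} (hJ : J.Finite)
    (E : Set (ufin V (QA s J) QA.trans)) (hE : E.Finite) :
    ∃ k : ℕ, ∀ x ∈ Subgroup.closure E, ∀ y ∈ derivedSeries (ufin V (QA s J) QA.trans) k,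
      ((x : (AddMonoid.End (Π₀ x, V x))ˣ)⁻¹ * (y : (AddMonoid.End (Π₀ x, V x))ˣ)) ∈
        ufin V (QK s J) QK.trans →
      (x : (AddMonoid.End (Π₀ x, V x))ˣ) ∈ ufin V (QK s J) QK.trans := by
  obtain ⟨J', hJ', h1⟩ := closure_le_fin s E hE
  obtain ⟨M, hM⟩ : ∃ M : ℕ, ∀ y ∈ J', ∀ x ∈ J', (Set.Icc y x ∩ hull s J).ncard ≤ M := by
    have h2 : ((fun p : Λ × Λ => (Set.Icc p.1 p.2 ∩ hull s J).ncard) '' (J' ×ˢ J')).Finite :=
      (hJ'.prod hJ').image _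
    obtain ⟨M, hM⟩ := h2.bddAbove
    exact ⟨M, fun y hy x hx => hM ⟨(y, x), ⟨hy, hx⟩, rfl⟩⟩
  refine ⟨M, fun x hx y hy hxy => ?_⟩
  have h2 := pat_derived (ufin V (QA s J) QA.trans).subtype (Psi s J)
    (fun k y x h => h.anti (Nat.zero_le k))
    (fun y z x h h' => (Psi.succ hJ 0 y z x h h'.1).anti (Nat.zero_le 1))
    (fun k y z x h h' => Psi.succ hJ k y z x h h'.1)
    (fun k y z x h h' => (Psi.succ hJ (k + 1) y z x h h'.1).anti (Nat.le_succ _)) ?_ M y hy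
  · obtain ⟨J'', hJ'', h3⟩ := hxy
    have h4 : Pat (Psi s J M) (y : (AddMonoid.End (Π₀ x, V x))ˣ) := h2
    have h5 : Pat (Psi s J M) ((x : (AddMonoid.End (Π₀ x, V x))ˣ)⁻¹ *
        (y : (AddMonoid.End (Π₀ x, V x))ˣ)) := by
      refine h3.mono ?_
      rintro y x ⟨-, -, h⟩
      exact ⟨h.1, Or.inl h.2⟩
    have h6 : Pat (Psi s J M) (x : (AddMonoid.End (Π₀ x, V x))ˣ) := by
      have h7 := h4.mul (R := Psi s J M)
        (fun y z x h h' => (Psi.succ hJ M y z x h h'.1).anti (Nat.le_succ _)) h5.inv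
      have h8 : (y : (AddMonoid.End (Π₀ x, V x))ˣ) * ((x : (AddMonoid.End (Π₀ x, V x))ˣ)⁻¹ *
          (y : (AddMonoid.End (Π₀ x, V x))ˣ))⁻¹ = x := by group
      rwa [h8] at h7
    refine ⟨J', hJ', ((h1 x hx).inter h6).mono ?_⟩
    rintro y x ⟨⟨h7, h8, h9⟩, h10, h11⟩
    refine ⟨h7, h8, h9, ?_⟩
    rcases h11 with h11 | h11
    · exact h11
    · have h12 := hM y h7 x h8
      omega
  · rintro ⟨x, J'', hJ'', hx⟩
    refine Pat.mono ?_ hx
    rintro y x ⟨-, -, h⟩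
    exact Psi.base hJ h

variable {C : ∀ (G : Type) [Group G], Prop}

theorem C_sup (hC : ClosedE C) (hsol : ∀ (S : Type) [Group S], Group.IsSolvable S → C S)
    (s : Λ ≃o Λ) {J : Set Λ} (hJ : J.Finite) (P : (AddMonoid.End (Π₀ x, V x))ˣ)
    (hP : Mono s.toEquiv P) : C ↥(ufin V (QA s J) QA.trans ⊔ Subgroup.zpowers P) := by
  have hP' := hP.inv
  have hA1 : ∀ y x, QA s J (s.toEquiv.symm y) (s.toEquiv.symm x) → QA s J y x := by
    intro y x h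
    have h1 : ∀ z, (s ^ (-1 : ℤ) : Λ ≃o Λ) z = s.toEquiv.symm z := fun z => by
      rw [zpow_neg_one]
      rfl
    rw [← h1, ← h1] at h
    exact QA.shift _ h
  have hA2 : ∀ y x, QA s J (s.toEquiv.symm.symm y) (s.toEquiv.symm.symm x) → QA s J y x := by
    intro y x h
    have h1 : ∀ z, (s ^ (1 : ℤ) : Λ ≃o Λ) z = s.toEquiv.symm.symm z := fun z => by
      rw [zpow_one]
      rfl
    rw [← h1, ← h1] at h
    exact QA.shift _ h
  have hK1 : ∀ y x, QK s J (s.toEquiv.symm y) (s.toEquiv.symm x) → QK s J y x := by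
    intro y x h
    have h1 : ∀ z, (s ^ (-1 : ℤ) : Λ ≃o Λ) z = s.toEquiv.symm z := fun z => by
      rw [zpow_neg_one]
      rfl
    rw [← h1, ← h1] at h
    exact QK.shift _ h
  have hK2 : ∀ y x, QK s J (s.toEquiv.symm.symm y) (s.toEquiv.symm.symm x) → QK s J y x := by
    intro y x h
    have h1 : ∀ z, (s ^ (1 : ℤ) : Λ ≃o Λ) z = s.toEquiv.symm.symm z := fun z => by
      rw [zpow_one]
      rfl
    rw [← h1, ← h1] at h
    exact QK.shift _ h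
  refine grp_sup hC hsol (ufin V (QA s J) QA.trans) (ufin V (QK s J) QK.trans) P ?_
    (ufin_ideal QK.left QK.right) ?_ ?_ ?_ ?_ (K_solvable s hJ) (A_detect s hJ)
  · rintro a ⟨J', hJ', ha⟩
    exact ⟨J', hJ', ha.mono fun y x h => ⟨h.1, h.2.1, h.2.2.1⟩⟩
  · exact ufin_conj s.toEquiv (mul_inv_cancel P) hP hP' hA1
  · exact ufin_conj s.toEquiv.symm (inv_mul_cancel P) hP' hP hA2
  · exact ufin_conj s.toEquiv (mul_inv_cancel P) hP hP' hK1
  · exact ufin_conj s.toEquiv.symm (inv_mul_cancel P) hP' hP hK2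

/-- **main theorem** -/
theorem mclain_main (hC : ClosedE C) (hsol : ∀ (S : Type) [Group S], Group.IsSolvable S → C S)
    {G : Type} [Group G] (N : Subgroup G) [N.Normal] (hQ : C (G ⧸ N))
    (j : N →* (AddMonoid.End (Π₀ x, V x))ˣ) (hj : Function.Injective j)
    (huni : ∀ n, FinUni (j n))
    (hconj : ∀ (g : G) (E : Set N), E.Finite → ∃ (s : Λ ≃o Λ) (P u : (AddMonoid.End (Π₀ x, V x))ˣ),
      Mono s.toEquiv P ∧ FinUni u ∧ ∀ n ∈ E, ∀ m : N, (m : G) = g * n * g⁻¹ →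
        j m = (u * P) * j n * (u * P)⁻¹) : C G := by
  refine Pool.Agent.R779.FJ.t_crit Pool.Agent.Y529.FJ.t_ext
    (Pool.Agent.Y961.FJ.t_perm Pool.Agent.Y529.FJ.t_ext) C hC G N hQ ?_
  intro g E hE hEN
  have hE2N : E ∪ (fun x => g * x * g⁻¹) '' E ⊆ N := by
    rintro x (hx | ⟨y, hy, rfl⟩)
    · exact hEN hx
    · exact ‹N.Normal›.conj_mem y (hEN hy) g
  obtain ⟨s, P, u, hP, ⟨Ju, hJu, hu⟩, hc⟩ := hconj g (N.subtype ⁻¹' E)
    (hE.preimage N.subtype_injective.injOn)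
  choose S hS hS' using huni
  obtain ⟨F, hF⟩ : ∃ F : Set N, F = N.subtype ⁻¹' (E ∪ (fun x => g * x * g⁻¹) '' E) := ⟨_, rfl⟩
  have hFfin : F.Finite := by
    rw [hF]
    exact (hE.union (hE.image _)).preimage N.subtype_injective.injOn
  obtain ⟨J, hJdef⟩ : ∃ J : Set Λ, J = Ju ∪ ⋃ e ∈ F, S e := ⟨_, rfl⟩
  have hJ : J.Finite := by
    rw [hJdef]
    exact hJu.union (hFfin.biUnion fun e _ => hS e)
  have hJh : ∀ x ∈ J, x ∈ hull s J := fun x hx => ⟨0, x, hx, (zzero s x).symm⟩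
  have memA : ∀ a : (AddMonoid.End (Π₀ x, V x))ˣ, ∀ J0 : Set Λ, J0.Finite → J0 ⊆ J →
      Sup (fun y x => y ∈ J0 ∧ x ∈ J0 ∧ y < x) ((a : AddMonoid.End (Π₀ x, V x)) - 1) →
      a ∈ ufin V (QA s J) QA.trans := by
    intro a J0 hJ0 hsub ha
    refine ⟨J0, hJ0, (FinUni.pat hJ0 ha).mono ?_⟩
    rintro y x ⟨h1, h2, h3⟩
    exact ⟨h1, h2, hJh y (hsub h1), hJh x (hsub h2), h3⟩
  have huA : u ∈ ufin V (QA s J) QA.trans := memA u Ju hJu (by
    rw [hJdef]; exact Set.subset_union_left) hu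
  have hle : Subgroup.closure (E ∪ (fun x => g * x * g⁻¹) '' E) ≤ N := (Subgroup.closure_le N).2 hE2N
  have hjA : ∀ x : ↥(Subgroup.closure (E ∪ (fun x => g * x * g⁻¹) '' E)),
      (j.comp (Subgroup.inclusion hle)) x ∈
        ufin V (QA s J) QA.trans ⊔ Subgroup.zpowers P := by
    have h1 : Subgroup.closure (E ∪ (fun x => g * x * g⁻¹) '' E) ≤
        ((ufin V (QA s J) QA.trans).comap j).map N.subtype := by
      rw [Subgroup.closure_le]
      intro x hx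
      have hxF : (⟨x, hE2N hx⟩ : N) ∈ F := by rw [hF]; exact hx
      refine ⟨⟨x, hE2N hx⟩, ?_, rfl⟩
      refine memA _ _ (hS _) ?_ (hS' _)
      rw [hJdef]
      exact (Set.subset_biUnion_of_mem hxF).trans Set.subset_union_right
    intro x
    obtain ⟨y, hy, hyx⟩ := h1 x.2
    have h2 : y = Subgroup.inclusion hle x := Subtype.ext hyx
    rw [h2] at hy
    exact Subgroup.mem_sup_left hy
  refine ⟨_, inferInstance, (j.comp (Subgroup.inclusion hle)).codRestrict _ hjA,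
    ⟨u * P, Subgroup.mul_mem _ (Subgroup.mem_sup_left huA)
      (Subgroup.mem_sup_right (Subgroup.mem_zpowers P))⟩, C_sup hC hsol s hJ P hP, ?_, ?_⟩
  · intro x y hxy
    have h1 : j (Subgroup.inclusion hle x) = j (Subgroup.inclusion hle y) :=
      congrArg Subtype.val hxy
    exact Subgroup.inclusion_injective hle (hj h1)
  · intro x y hx hy
    apply Subtype.ext
    exact hc (Subgroup.inclusion hle x) hx (Subgroup.inclusion hle y) hy

end Pool.Agent.U89.ML
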